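import Pool.Agent.N959.EX.Ex

/-!
# No stationary profile measure for heavy-tailed unimodal exclusion processes

Problem MP_8cded5_pr, Q1. For kernels `p` on `ℤ` with finite mean such that `p k` and `p (-k)` are
nonincreasing in `k ≥ 1`, `p (-k) ≤ p k`, and `p (-k) ≥ c k ^ (-β)` for some `β < 3` and `c > 0`,
no stationary measure of the exclusion process has densities tending to `0` at `-∞` and to `1` at
`+∞`. Explicit kernels satisfying (H) of the problem are covered for every `β` between `2` and `3`.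
-/

set_option autoImplicit false

open MeasureTheory Filter Topology

namespace Pool.Agent.Results.MP_8cded5_pr.NoHeavyTailProfile

/-- Configurations: `η x = true` when the site `x` is occupied. -/
abbrev Conf := ℤ → Bool

/-- The particle at `x`, if there is one, jumps to `y` if `y` is vacant. -/
def jump (x y : ℤ) (η : Conf) : Conf :=
  if η x = true ∧ η y = false then Function.update (Function.update η x false) y true else η

/-- Functions of finitely many coordinates. -/
def Cylinder (f : Conf → ℝ) : Prop :=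
  ∃ s : Finset ℤ, ∀ η ζ : Conf, (∀ x ∈ s, η x = ζ x) → f η = f ζ

/-- The generator of the exclusion process with kernel `p`. -/
noncomputable def gen (p : ℤ → ℝ) (f : Conf → ℝ) (η : Conf) : ℝ :=
  ∑' w : ℤ × ℤ, p (w.2 - w.1) * (f (jump w.1 w.2 η) - f η)

/-- Step distributions with finite mean. -/
structure Step (p : ℤ → ℝ) : Prop where
  nonneg : ∀ x, 0 ≤ p x
  sum : HasSum p 1
  mean : Summable fun x : ℤ => |(x : ℝ)| * p x

/-- Unimodality on both sides, larger rates to the right, heavy left tail of exponent below `3`. -/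
structure HeavyUnimodal (p : ℤ → ℝ) : Prop where
  right : ∀ k l : ℤ, 1 ≤ k → k ≤ l → p l ≤ p k
  left : ∀ k l : ℤ, 1 ≤ k → k ≤ l → p (-l) ≤ p (-k)
  asym : ∀ k : ℤ, 1 ≤ k → p (-k) ≤ p k
  tail : ∃ β c : ℝ, β < 3 ∧ 0 < c ∧ ∀ k : ℕ, 1 ≤ k → c * (k : ℝ) ^ (-β) ≤ p (-(k : ℤ))

/-- The hypothesis (H) of the problem (with all `p x`, `x ≠ 0`, positive, so that the walk is
irreducible): finite mean, positive drift, infinite second moment of the left tail. -/
structure HypH (p : ℤ → ℝ) : Prop where
  step : Step p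
  pos : ∀ x, x ≠ 0 → 0 < p x
  drift : 0 < ∑' x : ℤ, (x : ℝ) * p x
  second : ¬ Summable fun x : ℤ => if x < 0 then (x : ℝ) ^ 2 * p x else 0

/-- A Markov semigroup on the configuration space whose generator on the functions of finitely
many coordinates is the generator of the exclusion process with kernel `p`. -/
structure Process (p : ℤ → ℝ) where
  /-- the transition kernels -/
  P : NNReal → ProbabilityTheory.Kernel Conf Conf
  markov : ∀ t, ProbabilityTheory.IsMarkovKernel (P t)
  zero : P 0 = ProbabilityTheory.Kernel.id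
  add : ∀ s t, P (s + t) = ProbabilityTheory.Kernel.comp (P t) (P s)
  generator : ∀ f : Conf → ℝ, Cylinder f →
    TendstoUniformly (fun (t : NNReal) η => (∫ ζ, f ζ ∂(P t η) - f η) / (t : ℝ)) (gen p f)
      (𝓝[>] 0)

/-- Stationary measures of a process. -/
def Process.Stationary {p : ℤ → ℝ} (E : Process p) (μ : Measure Conf) : Prop :=
  ∀ t, μ.bind (E.P t) = μ

/-- Infinitesimally stationary measures. -/
def InfStationary (p : ℤ → ℝ) (μ : Measure Conf) : Prop :=
  ∀ f : Conf → ℝ, Cylinder f → ∫ η, gen p f η ∂μ = 0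

/-- The density of particles tends to `0` at `-∞` and to `1` at `+∞`. -/
def Profile (μ : Measure Conf) : Prop :=
  Tendsto (fun x : ℤ => μ.real {η : Conf | η x = true}) atBot (𝓝 0) ∧
  Tendsto (fun x : ℤ => μ.real {η : Conf | η x = true}) atTop (𝓝 1)

/-- The symmetric power law `|k| ^ (-β)`, `k ≠ 0`, normalised to mass `1 - b`, plus mass `b` at
`1`. -/
noncomputable def pl (β b : ℝ) (k : ℤ) : ℝ :=
  (1 - b) * ((if k = 0 then 0 else |(k : ℝ)| ^ (-β)) /
    ∑' l : ℤ, (if l = 0 then 0 else |(l : ℝ)| ^ (-β))) + if k = 1 then b else 0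

/-! ### Translation to the working definitions -/

lemma jump_eq (x y : ℤ) (η : Conf) : jump x y η = N959.EX.mv x y η := by
  unfold jump N959.EX.mv
  split_ifs with h
  · funext z
    unfold N959.EX.sw
    have hxy : x ≠ y := by
      rintro rfl
      rw [h.1] at h
      exact absurd h.2 (by simp)
    by_cases h1 : z = x
    · subst h1
      simp [hxy, h.2]
    · by_cases h2 : z = y
      · subst h2
        simp [h1, h.1]
      · simp [h1, h2]
  · rfl

lemma gen_eq (p : ℤ → ℝ) (f : Conf → ℝ) : gen p f = N959.EX.gen N959.EX.mv p f := by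
  funext η
  unfold gen N959.EX.gen
  simp only [jump_eq]

lemma cyl_of_dep {n : ℕ} {f : Conf → ℝ} (h : N959.EX.Dep n f) : Cylinder f := ⟨_, h⟩

lemma dep_of_cyl {f : Conf → ℝ} (h : Cylinder f) : ∃ n, N959.EX.Dep n f := by
  obtain ⟨s, hs⟩ := h
  refine ⟨s.sup Int.natAbs, fun η ζ h => hs η ζ fun x hx => h x ?_⟩
  have : x.natAbs ≤ s.sup Int.natAbs := Finset.le_sup hx
  simp only [N959.EX.Lam, Finset.mem_Icc]
  omega

lemma step_ker {p : ℤ → ℝ} (h : Step p) (h' : HeavyUnimodal p) : N959.EX.Ker p := by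
  refine ⟨h.nonneg, h.sum, h.mean, fun z hz => ?_⟩
  obtain ⟨β, c, _, hc, ht⟩ := h'.tail
  have hneg : ∀ k : ℕ, 1 ≤ k → 0 < p (-(k : ℤ)) := by
    intro k hk
    refine lt_of_lt_of_le ?_ (ht k hk)
    have : (0 : ℝ) < k := by
      have : 0 < k := by omega
      exact_mod_cast this
    positivity
  have h1 := hneg z.natAbs (by omega)
  rcases lt_or_gt_of_ne hz with h2 | h2
  · have : -(z.natAbs : ℤ) = z := by omega
    rwa [this] at h1
  · have e : (z.natAbs : ℤ) = z := by omega
    have h3 := h'.asym z (by omega)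
    rw [e] at h1
    linarith

lemma inf_of_stationary {p : ℤ → ℝ} (hp : N959.EX.Ker p) (E : Process p) (μ : Measure Conf)
    [IsProbabilityMeasure μ] (h : E.Stationary μ) : InfStationary p μ := by
  intro f hf
  obtain ⟨n, hn⟩ := dep_of_cyl hf
  have hfm : Measurable f := N959.EX.Fin2.dep_measurable hn
  obtain ⟨C, hC⟩ := N959.EX.Fin2.dep_bounded hn
  have hgm : Measurable (gen p f) := by
    rw [gen_eq]
    exact N959.EX.OrdQ.gen1_meas hp hn
  have hunif := E.generator f hf
  rw [Metric.tendstoUniformly_iff] at hunif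
  have hint : ∀ t, ∀ η, Integrable f (E.P t η) := by
    intro t η
    have := E.markov t
    exact Integrable.of_bound hfm.aestronglyMeasurable C
      (Eventually.of_forall fun ζ => by rw [Real.norm_eq_abs]; exact hC ζ)
  have hfi : Integrable f μ := Integrable.of_bound hfm.aestronglyMeasurable C
      (Eventually.of_forall fun ζ => by rw [Real.norm_eq_abs]; exact hC ζ)
  have hPm : ∀ t, StronglyMeasurable (fun η => ∫ ζ, f ζ ∂(E.P t η)) := by
    intro t
    have := E.markov t
    exact hfm.stronglyMeasurable.integral_kernel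
  have hPb : ∀ t η, |∫ ζ, f ζ ∂(E.P t η)| ≤ C := by
    intro t η
    have := E.markov t
    have h1 := norm_integral_le_of_norm_le_const (μ := E.P t η) (f := f) (C := C)
      (Eventually.of_forall fun ζ => by rw [Real.norm_eq_abs]; exact hC ζ)
    simpa using h1
  have hPi : ∀ t, Integrable (fun η => ∫ ζ, f ζ ∂(E.P t η)) μ := fun t =>
    Integrable.of_bound (hPm t).aestronglyMeasurable C
      (Eventually.of_forall fun η => by rw [Real.norm_eq_abs]; exact hPb t η)
  have hstat : ∀ t, ∫ η, ∫ ζ, f ζ ∂(E.P t η) ∂μ = ∫ η, f η ∂μ := by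
    intro t
    have := E.markov t
    have hfi' : Integrable f (μ.bind (E.P t)) := by rw [h t]; exact hfi
    have e1 : μ.bind (E.P t) = ((E.P t).comp (ProbabilityTheory.Kernel.const Unit μ)) () :=
      Measure.comp_eq_comp_const_apply
    have e2 : ∫ η, f η ∂(μ.bind (E.P t)) = ∫ η, ∫ ζ, f ζ ∂(E.P t η) ∂μ := by
      rw [e1] at hfi' ⊢
      rw [ProbabilityTheory.Kernel.integral_comp hfi', ProbabilityTheory.Kernel.const_apply]
    rw [← e2, h t]
  by_contra hne
  set c := |∫ η, gen p f η ∂μ| with hc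
  have hc0 : 0 < c := abs_pos.2 hne
  obtain ⟨t, ht1, ht2⟩ := ((hunif (c / 2) (by linarith)).and self_mem_nhdsWithin).exists
  have ht0 : (0 : ℝ) < t := by
    have : (0 : NNReal) < t := ht2
    exact_mod_cast this
  have hq : Integrable (fun η => (∫ ζ, f ζ ∂(E.P t η) - f η) / (t : ℝ)) μ :=
    ((hPi t).sub hfi).div_const _
  have hq0 : ∫ η, (∫ ζ, f ζ ∂(E.P t η) - f η) / (t : ℝ) ∂μ = 0 := by
    rw [integral_div, integral_sub (hPi t) hfi, hstat t, sub_self, zero_div]
  have hb : ∀ η, ‖gen p f η - (∫ ζ, f ζ ∂(E.P t η) - f η) / (t : ℝ)‖ ≤ c / 2 := by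
    intro η
    have := (ht1 η).le
    rwa [dist_eq_norm] at this
  have hgi : Integrable (gen p f) μ := by
    have h1 : Integrable (fun η => gen p f η - (∫ ζ, f ζ ∂(E.P t η) - f η) / (t : ℝ)) μ :=
      Integrable.of_bound (hgm.aestronglyMeasurable.sub hq.aestronglyMeasurable) (c / 2)
        (Eventually.of_forall hb)
    have h2 := h1.add hq
    refine h2.congr (Eventually.of_forall fun η => ?_)
    simp
  have h3 : ∫ η, gen p f η ∂μ = ∫ η, (gen p f η - (∫ ζ, f ζ ∂(E.P t η) - f η) / (t : ℝ)) ∂μ := by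
    rw [integral_sub hgi hq, hq0, sub_zero]
  have h4 := norm_integral_le_of_norm_le_const (μ := μ) (Eventually.of_forall hb)
  rw [← h3, Real.norm_eq_abs, ← hc] at h4
  simp at h4
  linarith

/-! ### The theorem -/

lemma main (p : ℤ → ℝ) (hp : Step p) (hh : HeavyUnimodal p) (μ : Measure Conf)
    [IsProbabilityMeasure μ] (hs : InfStationary p μ) : ¬ Profile μ := by
  have hk := step_ker hp hh
  refine N959.EX.t_MAIN3 p hk ⟨hp.nonneg, hh.right, hh.left, hh.asym⟩ hh.tail μ inferInstance ?_
  intro n F hF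
  have := hs F (cyl_of_dep hF)
  rwa [gen_eq] at this

lemma pl_eq (β b : ℝ) : pl β b = N959.EX.Ex.ex β b := rfl

lemma pl_class {β b : ℝ} (h2 : 2 < β) (h3 : β < 3) (h0 : 0 < b) (h1 : b < 1) :
    HypH (pl β b) ∧ HeavyUnimodal (pl β b) := by
  rw [pl_eq]
  have hu := N959.EX.Ex.ex_uni (β := β) (by linarith) h0 h1
  have hs : Step (N959.EX.Ex.ex β b) :=
    ⟨hu.nonneg, N959.EX.Ex.ex_sum (by linarith), N959.EX.Ex.ex_mean h2⟩
  have hh : HeavyUnimodal (N959.EX.Ex.ex β b) :=
    ⟨hu.right, hu.left, hu.asym, β, (1 - b) / N959.EX.Ex.Zc β, h3,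
      div_pos (by linarith) (N959.EX.Ex.Zc_pos (by linarith)), N959.EX.Ex.ex_tail⟩
  refine ⟨⟨hs, (step_ker hs hh).pos, ?_, N959.EX.Ex.ex_second (by linarith) h3.le h1⟩, hh⟩
  rw [N959.EX.Ex.ex_drift h2]
  exact h0

/-- **No stationary profile measure.** Let the step distribution `p` have finite mean, let `p k`
and `p (-k)` be nonincreasing in `k ≥ 1`, let `p (-k) ≤ p k`, and let
`p (-k) ≥ c k ^ (-β)` for all `k ≥ 1`, for some `β < 3` and `c > 0`. Then no stationary
distribution of the exclusion process (more generally, no probability measure `μ` with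
`∫ L f dμ = 0` for all cylinder functions `f`) has particle densities tending to `0` at `-∞` and
to `1` at `+∞`. The kernels `pl β b`, `2 < β < 3`, `0 < b < 1`, satisfy (H) and all these
hypotheses. -/
theorem result :
    (∀ p : ℤ → ℝ, Step p → HeavyUnimodal p → ∀ μ : Measure Conf, IsProbabilityMeasure μ →
      (InfStationary p μ ∨ ∃ E : Process p, E.Stationary μ) → ¬ Profile μ) ∧
    (∀ β b : ℝ, 2 < β → β < 3 → 0 < b → b < 1 → HypH (pl β b) ∧ HeavyUnimodal (pl β b)) := by
  refine ⟨?_, fun β b h2 h3 h0 h1 => pl_class h2 h3 h0 h1⟩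
  intro p hp hh μ hμ hs
  rcases hs with hs | ⟨E, hE⟩
  · exact main p hp hh μ hs
  · exact main p hp hh μ (inf_of_stationary (step_ker hp hh) E μ hE)

end Pool.Agent.Results.MP_8cded5_pr.NoHeavyTailProfile
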